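import Pool.Agent.TH285.AB.Alg
import Pool.Agent.TH285.AB.Num
import Pool.Agent.TH871.L1.Const

set_option autoImplicit false

/-!
A lower bound in the `n`-term abc conjecture, outside every proper Zariski closed subset, with a
larger constant.
-/

namespace Pool.Agent.Results.MP_7475bd_nt.LargerConstant

open Pool.Agent.H951R3

/-- `h(P)` for the rational point `P` with integer homogeneous coordinates `z`: the sum over all
places `v` of `ℚ` of `log max |z i|_v`, that is `log max |z i| - log gcd (z i)` -/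
noncomputable def height {n : ℕ} (z : Fin n → ℤ) : ℝ :=
  Real.log ((Finset.univ.sup fun i => (z i).natAbs : ℕ) : ℝ) -
    Real.log ((Finset.univ.gcd fun i => (z i).natAbs : ℕ) : ℝ)

open Classical in
/-- `rad(P)` for the rational point `P` with nonzero integer homogeneous coordinates `z`: the sum
of `log p` over the primes `p` at which the `ord_p (z i)` are not all equal -/
noncomputable def radical {n : ℕ} (z : Fin n → ℤ) : ℝ :=
  ∑ p ∈ (∏ i, (z i).natAbs).primeFactors with (∃ i j, padicValInt p (z i) ≠ padicValInt p (z j)),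
    Real.log p

/-- The Zariski closed subset of the hyperplane `Z_1 + ⋯ + Z_n = 0` of `ℙ^(n-1)` cut out by a set
of forms with complex coefficients, as a set of vectors of homogeneous coordinates. The hyperplane
itself is `locus ∅`. -/
def locus {n : ℕ} (G : Set (MvPolynomial (Fin n) ℂ)) : Set (Fin n → ℂ) :=
  {w | w ≠ 0 ∧ ∑ i, w i = 0 ∧ ∀ F ∈ G, MvPolynomial.eval w F = 0}

/-- **Main theorem.** Let `n ≥ 3`, let `Z` be a Zariski closed subset of the hyperplane
`Z_1 + ⋯ + Z_n = 0`, not the whole hyperplane, and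
`κ ≤ (n - 1)² / (n - 2)^((2n - 3) / (n - 1)) * 1.71^(2(n - 2) / (n - 1))`. Then there are points
`P` of the hyperplane outside `Z` with nonzero rational coordinates and with `h(P)` as large as one
likes such that `h(P) ≥ rad(P) + κ h(P)^((n - 2) / (n - 1)) / log h(P)`. -/
theorem result (n : ℕ) (hn : 3 ≤ n) (G : Set (MvPolynomial (Fin n) ℂ))
    (hG : ∀ F ∈ G, ∃ d, F.IsHomogeneous d) (hproper : locus G ≠ locus ∅)
    (κ : ℝ) (hκ : κ ≤ ((n : ℝ) - 1) ^ 2 / ((n : ℝ) - 2) ^ ((2 * (n : ℝ) - 3) / ((n : ℝ) - 1)) *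
      1.71 ^ (2 * ((n : ℝ) - 2) / ((n : ℝ) - 1)))
    (B : ℝ) :
    ∃ z : Fin n → ℤ, (∀ i, z i ≠ 0) ∧ ∑ i, z i = 0 ∧ (fun i => (z i : ℂ)) ∉ locus G ∧
      B ≤ height z ∧
      radical z + κ * height z ^ (((n : ℝ) - 2) / ((n : ℝ) - 1)) / Real.log (height z) ≤
        height z := by
  classical
  obtain ⟨k, rfl⟩ : ∃ k, n = k + 2 := ⟨n - 2, by omega⟩
  have hk : 1 ≤ k := by omega
  have hkR : (1 : ℝ) ≤ k := by exact_mod_cast hk
  have hk0 : (0 : ℝ) < k := by linarith
  -- a form of `G` which does not vanish on the hyperplane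
  obtain ⟨F, hFG, w, hw, hFw⟩ : ∃ F ∈ G, ∃ w : Fin (k + 2) → ℂ, ∑ i, w i = 0 ∧
      MvPolynomial.eval w F ≠ 0 := by
    by_contra hcon
    push Not at hcon
    apply hproper
    ext w
    constructor
    · rintro ⟨h1, h2, h3⟩
      exact ⟨h1, h2, fun F hF => absurd hF (Set.notMem_empty F)⟩
    · rintro ⟨h1, h2, h3⟩
      exact ⟨h1, h2, fun F hF => hcon F hF w h2⟩
  obtain ⟨d, hFd⟩ := hG F hFG
  obtain ⟨D, hD⟩ := Pool.Agent.TH285.AB.main_alg F hFd ⟨w, hw, hFw⟩
  -- exponents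
  have e1 : (((k + 2 : ℕ) : ℝ) - 2) = k := by push_cast; ring
  have e2 : (((k + 2 : ℕ) : ℝ) - 1) = k + 1 := by push_cast; ring
  have e3 : (2 * ((k + 2 : ℕ) : ℝ) - 3) = 2 * k + 1 := by push_cast; ring
  rw [e1, e2, e3] at hκ
  rw [e1, e2]
  set κ' : ℝ := max κ 0 with hκ'
  have hκ'0 : 0 ≤ κ' := le_max_right _ _
  have hpow : (0 : ℝ) < (k : ℝ) ^ ((2 * (k : ℝ) + 1) / (k + 1)) := Real.rpow_pos_of_pos hk0 _
  have hκ'le : κ' ≤ (k + 1 : ℝ) ^ 2 / (k : ℝ) ^ ((2 * (k : ℝ) + 1) / (k + 1)) *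
      (171 / 100 : ℝ) ^ (2 * (k : ℝ) / (k + 1)) := by
    refine max_le ?_ (by positivity)
    have e4 : (1.71 : ℝ) = 171 / 100 := by norm_num
    rwa [e4] at hκ
  -- short vectors
  obtain ⟨st, hst⟩ := Pool.Agent.TH871.L1.G5.data.exists_state
  have hb := Pool.Agent.TH871.L1.G5.bound
  rw [← hst] at hb
  have hst0 : 0 < st.κ := by
    rw [hst, Pool.Agent.TH871.L1.G5.val_P]
    positivity
  obtain ⟨ε, hε, hε1, hKε⟩ := Pool.Agent.TH285.AB.exists_eps
    (Pool.Agent.TH285.AB.const hk hκ'0 hκ'le hst0 (by rw [← mul_assoc]; exact hb))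
  obtain ⟨y, L', A, Q, hQ, hQD, hfin⟩ := Pool.Agent.TH285.AB.core hk hε hε1 hκ'0
    (κ := st.κ + ε) (by positivity) (Pool.Agent.TH871.L1.lattice st hε) hKε D
    (max B (Real.exp 1))
  obtain ⟨z, hz0, hzs, hFz, hht, hgain⟩ := hD y L' A Q hQ hQD
  have hht' : U.ht z = height z := rfl
  have hrad' : U.radz z = radical z := rfl
  rw [hht'] at hht hgain
  rw [hrad'] at hgain
  have hrad0 : 0 ≤ radical z := Finset.sum_nonneg fun p _ => Real.log_natCast_nonneg p
  obtain ⟨hB, hle⟩ := hfin (height z) (radical z) hrad0 hht hgain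
  have hB1 : Real.exp 1 ≤ height z := (le_max_right _ _).trans hB
  have h1e : (1 : ℝ) < Real.exp 1 := Real.one_lt_exp_iff.mpr one_pos
  have hh0 : 0 < height z := by linarith
  have hlh : 0 < Real.log (height z) := Real.log_pos (by linarith)
  refine ⟨z, hz0, hzs, fun hz => hFz (hz.2.2 F hFG), (le_max_left _ _).trans hB, ?_⟩
  have h1 : κ * height z ^ ((k : ℝ) / (k + 1)) / Real.log (height z) ≤
      κ' * (height z ^ ((k : ℝ) / (k + 1)) / Real.log (height z)) := by
    rw [mul_div_assoc]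
    exact mul_le_mul_of_nonneg_right (le_max_left _ _) (by positivity)
  linarith

end Pool.Agent.Results.MP_7475bd_nt.LargerConstant
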