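import Mathlib
import Pool.Agent.TH876.TM.Ext
import Pool.Agent.TH876.TM.Local
import Pool.Agent.TH876.TM.Glob
import Pool.Agent.TH876.TM.Scale
import Pool.Agent.TH876.TM.Count
import Pool.Agent.TH876.TM.MeetN
import Pool.Agent.TH876.TM.ValN
import Pool.Agent.TH876.TM.Curve

/-!
# The n-term abc conjecture along rational curves

`K` is a number field. We count the `K`-rational points of any height on a rational curve in
`P^(n-1)` which meets the coordinate hyperplanes in `q ≥ 3` points by their radical and the largest
norm of a prime in it.
-/

set_option autoImplicit false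

namespace Pool.Agent.Results.MP_7475bd_nt.RationalCurves

open NumberField IsDedekindDomain Polynomial

open Classical in
/-- the number of the different points of the projective line over an algebraic closure at which the
curve `t ↦ (P 0 (t) : ... : P (n-1) (t))` meets the coordinate hyperplanes (infinity is one of them
if the degrees of the `P i` are not all equal) -/
noncomputable def zeros {K : Type} [Field K] {n : ℕ} (P : Fin n → K[X]) : ℕ :=
  ((∏ i, P i).map (algebraMap K (AlgebraicClosure K))).roots.toFinset.card +
    if ∃ i j, (P i).natDegree < (P j).natDegree then 1 else 0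

/-- the primes at which the orders of the coordinates are not all equal -/
def supp {K : Type} [Field K] [NumberField K] {n : ℕ} (z : Fin n → K) :
    Set (HeightOneSpectrum (𝓞 K)) := {v | ∃ i j, v.valuation K (z i) ≠ v.valuation K (z j)}

/-- the parameters `t ∈ K` of the points of the curve with nonzero coordinates such that the product
of the norms of the primes at which the orders of the coordinates are not all equal is at most `X`,
each of these norms is at most `y`, and the logarithmic height (relative to `K`) is at most `H` -/
def Curve (K : Type) [Field K] [NumberField K] {n : ℕ} (P : Fin n → K[X]) (X y H : ℝ) : Set K :=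
  {t | (∀ i, (P i).eval t ≠ 0) ∧
    Real.exp (∑ᶠ v ∈ supp (fun i => (P i).eval t), Real.log (Ideal.absNorm v.asIdeal : ℝ)) ≤ X ∧
    (∀ v ∈ supp (fun i => (P i).eval t), (Ideal.absNorm v.asIdeal : ℝ) ≤ y) ∧
    Height.logHeight (fun i => (P i).eval t) ≤ H}

/-- Let `K` be a number field, `P 0, ..., P (n-1)` nonzero polynomials over `K` without a common
zero such that the curve `t ↦ (P 0 (t) : ... : P (n-1) (t))` meets the coordinate hyperplanes in
`q ≥ 3` different points, and `ε > 0`. For all `X, y, H ≥ 1` there are at most
`C y X ^ (2 / q + ε) (1 + log H)` points on it with parameter in `K` and nonzero coordinates such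
that the product of the norms of the primes at which the orders of the coordinates are not all equal
is at most `X`, each of these norms is at most `y`, and the logarithmic height is at most `H`. -/
theorem result (K : Type) [Field K] [NumberField K] (n : ℕ) (P : Fin n → K[X])
    (hP : ∀ i, P i ≠ 0) (hu : ∃ u : Fin n → K[X], ∑ i, u i * P i = 1) (hq : 3 ≤ zeros P)
    (ε : ℝ) (hε : 0 < ε) :
    ∃ C : ℝ, ∀ X y H : ℝ, 1 ≤ X → 1 ≤ y → 1 ≤ H → (Curve K P X y H).Finite ∧
      ((Curve K P X y H).ncard : ℝ) ≤
        C * y * X ^ (2 / (zeros P : ℝ) + ε) * (1 + Real.log H) :=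
  Pool.Agent.TH876.TM.curve (fun K _ _ => Pool.Agent.TH876.TM.count K
    (Pool.Agent.TH876.TM.local_sys K (Pool.Agent.TH876.TM.ext K)) (Pool.Agent.TH876.TM.glob K)
    (Pool.Agent.TH876.TM.scale K (Pool.Agent.TH876.TM.glob K)))
    Pool.Agent.TH876.TM.meetN Pool.Agent.TH876.TM.valN K n P hP hu hq ε hε

end Pool.Agent.Results.MP_7475bd_nt.RationalCurves
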