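import Mathlib
import Pool.Agent.TH551.HA.Jc5

/-!
# MP_7475bd_nt: the abcd conjecture over `ℚ` for sparse points

Let `m ≥ 0`, `k`, `p`, a map `τ` from `{0, …, p - 1}` to `{0, …, m + 1}`, exponents `e i ≥ 1`, a
finitely generated group `Γ` of rational numbers (for instance the `S`-units) and `ε > 0` be given.
There are a nonzero form `G` over `ℚ` in `m + 1` variables and `K > 0` such that the following holds
for all `M ≥ 1`. Let `A 0 + … + A (m + 1) = 0` be a relation between nonzero integers such that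

* `A σ = w σ * ∏_{τ i = σ} x i ^ (e i)` for all `σ`, with `w σ ∈ Γ` and integers `x i`,
* each `x i` is a sum of `k` products `u c`, `u ∈ Γ`, `c` an integer with `|c| ≤ M`,
* `G (A 0, …, A m) ≠ 0`.

Then `|A σ| ^ (1 - ε) ≤ (K M) ^ K gcd (A 0, …, A (m + 1)) ∏_i |x i|` for all `σ`.

In terms of the point `P = (A 0 : … : A (m + 1))` of the hyperplane: for `P` outside a proper closed
subset, `h(P) ≤ (1 + ε) ∑_i log |x i| + C (1 + log M)`, up to a change of `ε`, if the `A σ` have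
greatest common divisor `1`.
-/

set_option autoImplicit false

namespace Pool.Agent.Results.MP_7475bd_nt.SparseABCD

theorem result (m p k : ℕ) (τ : Fin p → Fin (m + 2)) (e : Fin p → ℕ) (he : ∀ i, 1 ≤ e i)
    (Γ : Subgroup ℚˣ) (hΓ : Γ.FG) (ε : ℝ) (hε : 0 < ε) :
    ∃ (G : MvPolynomial (Fin (m + 1)) ℚ) (K : ℝ), (∃ d, G.IsHomogeneous d) ∧ G ≠ 0 ∧ 0 < K ∧
      ∀ M : ℝ, 1 ≤ M → ∀ (u : Fin p → Fin k → Γ) (c : Fin p → Fin k → ℤ),
        (∀ i j, |(c i j : ℝ)| ≤ M) → ∀ x : Fin p → ℤ,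
        (∀ i, (x i : ℚ) = ∑ j, ((u i j : ℚˣ) : ℚ) * c i j) →
        ∀ w A : Fin (m + 2) → ℤ, (∀ σ, ∃ g ∈ Γ, (w σ : ℚ) = (g : ℚ)) →
        (∀ σ, A σ = w σ * ∏ i with τ i = σ, x i ^ (e i)) → (∀ σ, A σ ≠ 0) →
        ∑ σ, A σ = 0 → MvPolynomial.aeval (fun i => (A (Fin.castSucc i) : ℚ)) G ≠ 0 →
        ∀ σ, |(A σ : ℝ)| ^ (1 - ε) ≤
          (K * M) ^ K * (((Finset.univ.gcd A : ℤ) : ℝ) * ∏ i, |(x i : ℝ)|) :=
  Pool.Agent.TH551.HA.abcdPow m p k τ e he Γ hΓ ε hε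

end Pool.Agent.Results.MP_7475bd_nt.SparseABCD
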