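import Mathlib
import Pool.Agent.TH419.VQ.Main3

/-!
# MP_7475bd_nt: the abc inequality for `e w ^ p + B = D s ^ q`, `w` and `D` sparse

Let `p, q ≥ 1`, and let `S` be a finite set of primes. For all integers `e`, `w`, `D`, `s`, `B`
different from `0` with `D * s ^ q = e * w ^ p + B`, `|e| ≤ H`, such that

* `w = a 0 * u 0 + ... + a k * u k` with positive integers `u i` all of whose prime factors are in
  `S`, integers `|a i| ≤ H`, `a 0 ≠ 0`, and `u i ≤ (u 0) ^ (1 - η)` for `i ≠ 0`,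
* `D = b 0 * v 0 + ... + b k' * v k'` with positive integers `v i` all of whose prime factors are in
  `S`, integers `|b i| ≤ H`, `b 0 ≠ 0`, and `v i ≤ v 0 / (u 0) ^ η` for `i ≠ 0`,

the integers `B` and `s` being ARBITRARY, we show the `abc` inequality

  `|D * s ^ q| ^ (1 - ε) ≤ K * (|w| * |B| * |D * s|)`,

with the product `|w| * |B| * |D * s|` in place of the radical of `w ^ p * B * D * s ^ q`.

Proof: unless `B` is large (when there is nothing to do), `(D s) ^ q` is close to the sparse sum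
`e w ^ p D ^ (q - 1)`, which has a dominating term; the expansion of its `q`-th root and the
subspace theorem show that `D s` is, up to a small factor, a sum of boundedly many `S`-units. Then
`B` is one as well, and the derivation of germs of sums of `S`-units gives the inequality.
-/

set_option autoImplicit false

namespace Pool.Agent.Results.MP_7475bd_nt.SparseTwoFreeTerms

theorem result (p q : ℕ) (hp : 1 ≤ p) (hq : 1 ≤ q) (k k' H : ℕ) (S : Finset ℕ) (η ε : ℝ)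
    (hη : 0 < η) (hε : 0 < ε) :
    ∃ K : ℝ, 0 < K ∧ ∀ (u : Fin (k + 1) → ℕ) (v : Fin (k' + 1) → ℕ) (a : Fin (k + 1) → ℤ)
      (b : Fin (k' + 1) → ℤ) (e w D s B : ℤ),
      (∀ i, u i ≠ 0 ∧ (u i).primeFactors ⊆ S) → (∀ i, v i ≠ 0 ∧ (v i).primeFactors ⊆ S) →
      (∀ i, |a i| ≤ H) → (∀ i, |b i| ≤ H) → |e| ≤ H → a 0 ≠ 0 → b 0 ≠ 0 →
      (∀ i, i ≠ 0 → (u i : ℝ) ≤ (u 0 : ℝ) ^ (1 - η)) →
      (∀ i, i ≠ 0 → (v i : ℝ) ≤ (v 0 : ℝ) / (u 0 : ℝ) ^ η) →
      w = ∑ i, a i * (u i : ℤ) → D = ∑ i, b i * (v i : ℤ) →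
      e * w ^ p + B = D * s ^ q → e ≠ 0 → w ≠ 0 → B ≠ 0 → D ≠ 0 → s ≠ 0 →
      |((D * s ^ q : ℤ) : ℝ)| ^ (1 - ε) ≤ K * (|(w : ℝ)| * |(B : ℝ)| * |(D : ℝ) * (s : ℝ)|) := by
  obtain ⟨p, rfl⟩ : ∃ p', p = p' + 1 := ⟨p - 1, by omega⟩
  obtain ⟨m, rfl⟩ : ∃ m, q = m + 1 := ⟨q - 1, by omega⟩
  have hS : ∀ r ∈ S.filter Nat.Prime, r.Prime := fun r hr => (Finset.mem_filter.1 hr).2
  obtain ⟨C, hC⟩ := Pool.Agent.TH419.VQ.abcS m p k k' H (S.filter Nat.Prime) hS η ε hη hε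
  refine ⟨Real.exp C, Real.exp_pos _, ?_⟩
  intro u v a b e w D s B hu hv haH hbH heH ha0 hb0 hdu hdv hw hD hF he0 hw0 hB0 hD0 hs0
  have hsm : ∀ {j : ℕ} (w : Fin (j + 1) → ℕ), (∀ i, w i ≠ 0 ∧ (w i).primeFactors ⊆ S) →
      ∀ i, Pool.Agent.TH419.WI.Smooth (S.filter Nat.Prime) (w i) := fun w hw i =>
    ⟨(hw i).1, fun p hp => Finset.mem_filter.2 ⟨(hw i).2 hp, Nat.prime_of_mem_primeFactors hp⟩⟩
  have hu0 : (0 : ℝ) < u 0 := by
    have := Nat.pos_of_ne_zero (hu 0).1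
    exact_mod_cast this
  have key := hC u v a b (hsm u hu) (hsm v hv) hdu (fun i hi => by
    have h1 := hdv i hi
    rwa [le_div_iff₀ (Real.rpow_pos_of_pos hu0 η)] at h1) ha0 hb0 haH hbH e w D s B he0 heH hw hD
    hF.symm hw0 hD0 hs0 hB0
  have hpos : ∀ g : ℤ, g ≠ 0 → (0 : ℝ) < |(g : ℝ)| := fun g hg =>
    abs_pos.2 (by exact_mod_cast hg)
  have hc0 : D * s ^ (m + 1) ≠ 0 := mul_ne_zero hD0 (pow_ne_zero _ hs0)
  have hc : (0 : ℝ) < |((D * s ^ (m + 1) : ℤ) : ℝ)| := hpos _ hc0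
  have hwp := hpos w hw0
  have hBp := hpos B hB0
  have hDp := hpos D hD0
  have hsp := hpos s hs0
  have hlog : Real.log |((D * s ^ (m + 1) : ℤ) : ℝ)| =
      Real.log |(D : ℝ)| + ((m : ℝ) + 1) * Real.log |(s : ℝ)| := by
    push_cast
    rw [abs_mul, abs_pow, Real.log_mul hDp.ne' (by positivity), Real.log_pow]
    push_cast
    ring
  rw [abs_mul (D : ℝ) (s : ℝ), ← Real.log_le_log_iff (Real.rpow_pos_of_pos hc _)
    (by positivity), Real.log_rpow hc, Real.log_mul (Real.exp_pos _).ne' (by positivity),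
    Real.log_exp, Real.log_mul (by positivity) (by positivity), Real.log_mul hwp.ne' hBp.ne',
    Real.log_mul hDp.ne' hsp.ne']
  have h1 : (1 - ε) * Real.log |((D * s ^ (m + 1) : ℤ) : ℝ)| =
      (Real.log |(D : ℝ)| + ((m : ℝ) + 1) * Real.log |(s : ℝ)|) -
        ε * Real.log |((D * s ^ (m + 1) : ℤ) : ℝ)| := by
    rw [← hlog]; ring
  rw [h1]
  linarith

end Pool.Agent.Results.MP_7475bd_nt.SparseTwoFreeTerms
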